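import Pool.Agent.Helper39.CR.GoalsT

open scoped ComplexOrder ZeroAtInfty
open TopologicalSpace

namespace Pool.Agent.Helper36.CR

open Pool.Agent.Helper34.CAR Pool.Agent.Helper39.Uct Pool.Agent.Helper39.CR

noncomputable section

variable {I B : Type} [Fintype I] [DecidableEq I] [CStarAlgebra B]

/-- The matrix units of `Mt I B`. -/
def mu (i j : I) : B →ₗ[ℂ] Mt I B where
  toFun b := Mt.single i j b
  map_add' x y := by
    refine Mt.ext fun a b => ?_
    rw [Mt.add_apply, Mt.single_apply, Mt.single_apply, Mt.single_apply]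
    split_ifs <;> simp
  map_smul' c x := by
    refine Mt.ext fun a b => ?_
    rw [RingHom.id_apply, Mt.smul_apply, Mt.single_apply, Mt.single_apply]
    split_ifs <;> simp

theorem mu_apply (i j : I) (b : B) : mu i j b = Mt.single i j b := rfl

theorem munits : MUnits (mu : I → I → B →ₗ[ℂ] Mt I B) where
  mul i j k a b := Mt.single_mul_single i j k a b
  mul0 i j k l a b h := Mt.single_mul_single_ne h i l a b
  star i j a := Mt.star_single i j a
  inj i j a h := by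
    have h1 : (Mt.single i j a : Mt I B) i j = 0 := by
      have : (Mt.single i j a : Mt I B) = 0 := h
      rw [this]
      rfl
    rwa [Mt.single_apply, if_pos ⟨rfl, rfl⟩] at h1
  span x := ⟨fun i j => x i j, Mt.eq_sum_single x⟩

/-- The corner embeddings of `Mt I B`. -/
def cornH (i : I) : B →⋆ₙₐ[ℂ] Mt I B where
  toFun b := Mt.single i i b
  map_smul' c b := (mu i i : B →ₗ[ℂ] Mt I B).map_smul c b
  map_zero' := (mu i i : B →ₗ[ℂ] Mt I B).map_zero
  map_add' x y := (mu i i : B →ₗ[ℂ] Mt I B).map_add x y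
  map_mul' x y := (Mt.single_mul_single i i i x y).symm
  map_star' x := (Mt.star_single i i x).symm

theorem cornH_apply (i : I) (b : B) : cornH i b = Mt.single i i b := rfl

theorem sep_c0 (h : S_EMB) (E : Type) [NonUnitalCStarAlgebra E] [SeparableSpace E] :
    SeparableSpace C₀(ℝ, E) := by
  obtain ⟨u, hu, -⟩ := h E
  exact sep_of_inj u hu

theorem tneg (hEMB : S_EMB) (hTZ : S_TZ) (hTADD : S_TADD) (hTCOR : S_TCOR) (hTUN : S_TUN)
    (hTNULL : S_TNULL) : S_TNEG := by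
  intro T i E _ _
  have hsep : SeparableSpace C₀(ℝ, E) := sep_c0 hEMB E
  obtain ⟨h₁, h₂, c1, c2, e1, e2, e3⟩ := hTNULL E
  -- the composite homotopy
  have hnull : ∀ z, T.map i (h₁ 0) z = 0 := by
    intro z
    rw [T.homotopy i _ _ h₁ c1]
    have e : h₁ 1 = h₂ 0 := DFunLike.ext _ _ e2
    rw [e, T.homotopy i _ _ h₂ c2]
    exact (hTZ T).1 i _ _ (h₂ 1) e3 z
  -- the two corners
  have hc : T.map i (cornH (0 : Fin 2) : Unitization ℂ C₀(ℝ, E) →⋆ₙₐ[ℂ] Mt (Fin 2) _) =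
      T.map i (cornH (1 : Fin 2) : Unitization ℂ C₀(ℝ, E) →⋆ₙₐ[ℂ] Mt (Fin 2) _) :=
    hTCOR T i _ _ (Fin 2) mu munits 0 1 _ _ (fun _ => rfl) (fun _ => rfl)
  have hb : Function.Bijective
      (T.map i (cornH (0 : Fin 2) : Unitization ℂ C₀(ℝ, E) →⋆ₙₐ[ℂ] Mt (Fin 2) _)) :=
    T.stable i _ _ (Fin 2) mu munits 0 _ (fun _ => rfl)
  have hun : Function.Bijective (T.map i (inrH C₀(ℝ, E))) := hTUN T i _
  let f : Fin 2 → (C₀(ℝ, E) →⋆ₙₐ[ℂ] Mt (Fin 2) (Unitization ℂ C₀(ℝ, E))) := fun j =>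
    if j = 0 then (cornH (0 : Fin 2)).comp ((inrH C₀(ℝ, E)).comp (flip E))
    else (cornH (1 : Fin 2)).comp (inrH C₀(ℝ, E))
  have f0 : f 0 = (cornH (0 : Fin 2)).comp ((inrH C₀(ℝ, E)).comp (flip E)) := if_pos rfl
  have f1 : f 1 = (cornH (1 : Fin 2)).comp (inrH C₀(ℝ, E)) := if_neg one_ne_zero
  have f0a : ∀ a, f 0 a = Mt.single 0 0 ((flip E a : C₀(ℝ, E)) : Unitization ℂ C₀(ℝ, E)) := by
    intro a
    rw [f0]
    rfl
  have f1a : ∀ a, f 1 a = Mt.single 1 1 ((a : C₀(ℝ, E)) : Unitization ℂ C₀(ℝ, E)) := by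
    intro a
    rw [f1]
    rfl
  have hsum : ∀ z, T.map i (flip E) (T.map i (inrH C₀(ℝ, E)) (T.map i (cornH (0 : Fin 2)) z)) +
      T.map i (inrH C₀(ℝ, E)) (T.map i (cornH (0 : Fin 2)) z) = 0 := by
    intro z
    have h3 := hTADD T i _ _ (Fin 2) f (h₁ 0) ?_ ?_ z
    · rw [hnull, Fin.sum_univ_two, f0, f1, T.map_comp, T.map_comp, T.map_comp, ← hc] at h3
      exact h3.symm
    · intro j k hjk a b
      have h2 : ∀ i : Fin 2, i = 0 ∨ i = 1 := by decide
      rcases h2 j with rfl | rfl <;> rcases h2 k with rfl | rfl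
      · exact absurd rfl hjk
      · rw [f0a, f1a]
        exact Mt.single_mul_single_ne (by decide) _ _ _ _
      · rw [f0a, f1a]
        exact Mt.single_mul_single_ne (by decide) _ _ _ _
      · exact absurd rfl hjk
    · intro a
      rw [Fin.sum_univ_two, f0a, f1a, e1]
      rfl
  have hflip : ∀ x : T.F i C₀(ℝ, E), T.map i (flip E) x = -x := by
    intro x
    obtain ⟨w, rfl⟩ := hun.2 x
    obtain ⟨z, rfl⟩ := hb.2 w
    exact eq_neg_of_add_eq_zero_left (hsum z)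
  refine ⟨hflip, ?_⟩
  intro g hg x
  apply hun.1
  have h4 : g.comp (inrH C₀(ℝ, E)) = (inrH C₀(ℝ, E)).comp (flip E) := by
    refine DFunLike.ext _ _ fun a => ?_
    show g ((a : C₀(ℝ, E)) : Unitization ℂ C₀(ℝ, E)) =
      ((flip E a : C₀(ℝ, E)) : Unitization ℂ C₀(ℝ, E))
    rw [hg]
    exact Unitization.starMap_inr _ _
  rw [← T.map_comp, h4, T.map_comp, hflip, map_neg]

end

end Pool.Agent.Helper36.CR
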